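import Mathlib

/-! Abstract Osterwalder–Schrader reconstruction of the Hilbert space and of the transfer
operator from a positive semidefinite form and a symmetric map, with mass gap. -/

open scoped ComplexConjugate
open RCLike

noncomputable section

namespace Pool.Agent.N453.OS

universe u v

/-! ### Symmetric maps of a seminormed inner product space -/

section Pre

variable {𝕜 : Type*} {E : Type*} [RCLike 𝕜] [SeminormedAddCommGroup E] [InnerProductSpace 𝕜 E]

theorem iter_symm {τ : E → E} (hτ : ∀ x y, inner 𝕜 (τ x) y = inner 𝕜 x (τ y)) (n : ℕ) (x y : E) :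
    inner 𝕜 (τ^[n] x) y = inner 𝕜 x (τ^[n] y) := by
  induction n generalizing x y with
  | zero => rfl
  | succ n ih => rw [Function.iterate_succ_apply', hτ, ih, ← Function.iterate_succ_apply]

theorem norm_iter_sq {τ : E → E} (hτ : ∀ x y, inner 𝕜 (τ x) y = inner 𝕜 x (τ y)) (n : ℕ) (x : E) :
    ‖τ^[n] x‖ ^ 2 = ‖inner 𝕜 x (τ^[2 * n] x)‖ := by
  rw [two_mul, Function.iterate_add_apply, ← iter_symm hτ, inner_self_eq_norm_sq_to_K]
  simp

/-- a sequence which is log convex along doublings and exponentially bounded has the optimal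
constant -/
theorem seq_le {b : ℕ → ℝ} {C q : ℝ} (hq : 0 < q) (h0 : ∀ n, 0 ≤ b n)
    (h2 : ∀ n, b n ^ 2 ≤ b 0 * b (2 * n)) (hC : ∀ n, b n ^ 2 ≤ C * q ^ (2 * n)) (n : ℕ) :
    b n ≤ q ^ n * b 0 := by
  rcases (h0 0).eq_or_lt with hb | hb
  · have := h2 n
    rw [← hb, zero_mul] at this
    rw [← hb, mul_zero]
    nlinarith [h0 n, sq_nonneg (b n)]
  by_contra hcon
  push Not at hcon
  have hqn : 0 < q ^ n := pow_pos hq n
  set ρ : ℝ := b n / (q ^ n * b 0) with hρ
  have hρ1 : 1 < ρ := by rw [hρ, one_lt_div (by positivity)]; exact hcon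
  have hbn : b n = b 0 * (q ^ n * ρ) := by rw [hρ]; field_simp
  have key : ∀ k : ℕ, b 0 * (q ^ n * ρ) ^ (2 ^ k) ≤ b (2 ^ k * n) := by
    intro k
    induction k with
    | zero => simp [hbn]
    | succ k ih =>
      have h := h2 (2 ^ k * n)
      have e : 2 * (2 ^ k * n) = 2 ^ (k + 1) * n := by ring
      rw [e] at h
      have h3 : (b 0 * (q ^ n * ρ) ^ (2 ^ k)) ^ 2 ≤ b 0 * b (2 ^ (k + 1) * n) :=
        le_trans (pow_le_pow_left₀ (by positivity) ih 2) h
      have e2 : (b 0 * (q ^ n * ρ) ^ (2 ^ k)) ^ 2 = b 0 * (b 0 * (q ^ n * ρ) ^ (2 ^ (k + 1))) := by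
        rw [pow_succ 2 k, pow_mul]; ring
      rw [e2] at h3
      exact le_of_mul_le_mul_left h3 hb
  have key2 : ∀ k : ℕ, b 0 ^ 2 * ρ ^ (2 * 2 ^ k) ≤ C := by
    intro k
    have h := hC (2 ^ k * n)
    have h3 := le_trans (pow_le_pow_left₀ (by positivity) (key k) 2) h
    have e2 : (b 0 * (q ^ n * ρ) ^ (2 ^ k)) ^ 2
        = (b 0 ^ 2 * ρ ^ (2 * 2 ^ k)) * q ^ (2 * (2 ^ k * n)) := by
      rw [mul_pow, ← pow_mul, mul_pow, ← pow_mul]
      have : n * (2 ^ k * 2) = 2 * (2 ^ k * n) := by ring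
      rw [this, show 2 ^ k * 2 = 2 * 2 ^ k by ring]; ring
    rw [e2] at h3
    exact le_of_mul_le_mul_right h3 (by positivity)
  obtain ⟨k, hk⟩ := pow_unbounded_of_one_lt (C / b 0 ^ 2) hρ1
  have h5 : ρ ^ k ≤ ρ ^ (2 * 2 ^ k) := pow_le_pow_right₀ hρ1.le (by
    have := Nat.lt_two_pow_self (n := k); omega)
  have h6 := key2 k
  rw [div_lt_iff₀ (by positivity)] at hk
  nlinarith [mul_le_mul_of_nonneg_right h5 (sq_nonneg (b 0))]

theorem norm_iter_le {τ : E → E} (hτ : ∀ x y, inner 𝕜 (τ x) y = inner 𝕜 x (τ y)) {x : E} {C q : ℝ}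
    (hq : 0 < q) (hC : ∀ n, ‖inner 𝕜 x (τ^[n] x)‖ ≤ C * q ^ n) (n : ℕ) :
    ‖τ^[n] x‖ ≤ q ^ n * ‖x‖ := by
  have := seq_le (b := fun n => ‖τ^[n] x‖) (C := C) hq (fun n => norm_nonneg _) (fun n => ?_)
    (fun n => ?_) n
  · simpa using this
  · rw [norm_iter_sq hτ]
    exact norm_inner_le_norm _ _
  · rw [norm_iter_sq hτ]
    exact hC _

theorem corr_iter_le {τ : E → E} (hτ : ∀ x y, inner 𝕜 (τ x) y = inner 𝕜 x (τ y)) {x : E} {C q : ℝ}
    (hq : 0 < q) (hC : ∀ n, ‖inner 𝕜 x (τ^[n] x)‖ ≤ C * q ^ n) (n : ℕ) :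
    ‖inner 𝕜 x (τ^[n] x)‖ ≤ q ^ n * ‖x‖ ^ 2 := by
  refine le_trans (norm_inner_le_norm _ _) ?_
  have := mul_le_mul_of_nonneg_left (norm_iter_le hτ hq hC n) (norm_nonneg x)
  linarith [this]

end Pre

theorem le_of_sq_le {a b : ℝ} (h : a ^ 2 ≤ b ^ 2) (hb : 0 ≤ b) : a ≤ b :=
  le_trans (le_abs_self a) (by rw [← abs_of_nonneg hb]; exact sq_le_sq.mp h)

/-! ### The data -/

/-- the data: a positive semidefinite hermitian form `B` on the space `A` of observables, a
symmetric linear map `τ` of `A` with bounded orbits, an invariant unit vector -/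
structure Data (𝕜 : Type u) (A : Type v) [RCLike 𝕜] [AddCommGroup A] [Module 𝕜 A] where
  B : A → A → 𝕜
  symm : ∀ F G, conj (B G F) = B F G
  nonneg : ∀ F, 0 ≤ re (B F F)
  add_left : ∀ F F' G, B (F + F') G = B F G + B F' G
  smul_left : ∀ F G (r : 𝕜), B (r • F) G = conj r * B F G
  τ : A →ₗ[𝕜] A
  symm_τ : ∀ F G, B (τ F) G = B F (τ G)
  one : A
  τ_one : τ one = one
  B_one : B one one = 1
  bdd : ∀ F, ∃ C : ℝ, ∀ n : ℕ, ‖B F (τ^[n] F)‖ ≤ C

variable {𝕜 : Type u} {A : Type v} [RCLike 𝕜] [AddCommGroup A] [Module 𝕜 A]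

/-- the space of observables, with the seminorm of `D` -/
@[nolint unusedArguments]
def Pre (_ : Data 𝕜 A) : Type v := A

variable (D : Data 𝕜 A)

instance : AddCommGroup (Pre D) := inferInstanceAs (AddCommGroup A)

instance : Module 𝕜 (Pre D) := inferInstanceAs (Module 𝕜 A)

/-- the semi inner product of `D` -/
abbrev preCore : PreInnerProductSpace.Core 𝕜 (Pre D) where
  inner x y := D.B x y
  conj_inner_symm x y := D.symm x y
  re_inner_nonneg x := D.nonneg x
  add_left x y z := D.add_left x y z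
  smul_left x y r := D.smul_left x y r

instance : SeminormedAddCommGroup (Pre D) :=
  InnerProductSpace.Core.toSeminormedAddCommGroup (c := preCore D)

instance : InnerProductSpace 𝕜 (Pre D) := InnerProductSpace.ofCore (preCore D)

/-- the Hilbert space -/
abbrev Hil : Type v := UniformSpace.Completion (Pre D)

/-- the map from observables to vectors -/
def J : A →ₗ[𝕜] Hil D :=
  (UniformSpace.Completion.toComplL : Pre D →L[𝕜] Hil D).toLinearMap ∘ₗ
    (LinearMap.id : A →ₗ[𝕜] A)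

/-- an observable as an element of the pre-Hilbert space -/
def toPre (F : A) : Pre D := F

theorem J_apply (F : A) : J D F = ((toPre D F : Pre D) : Hil D) := rfl

theorem denseRange_J : DenseRange (J D) :=
  (UniformSpace.Completion.denseRange_coe : DenseRange ((↑) : Pre D → Hil D))

theorem inner_J (F G : A) : inner 𝕜 (J D F) (J D G) = D.B F G := by
  rw [J_apply, J_apply, UniformSpace.Completion.inner_coe]; rfl

theorem norm_J_sq (F : A) : ‖J D F‖ ^ 2 = re (D.B F F) := by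
  rw [← inner_J, inner_self_eq_norm_sq]

/-- the invariant vector -/
def Ω : Hil D := J D D.one

theorem norm_Ω : ‖Ω D‖ = 1 := by
  have h : ‖Ω D‖ ^ 2 = 1 := by rw [Ω, norm_J_sq, D.B_one]; simp
  nlinarith [norm_nonneg (Ω D)]

theorem inner_Ω_Ω : inner 𝕜 (Ω D) (Ω D) = 1 := by rw [Ω, inner_J, D.B_one]

/-- `τ` on the pre-Hilbert space -/
def τp : Pre D → Pre D := fun x => toPre D (D.τ x)

theorem τp_iter (F : A) (n : ℕ) : (τp D)^[n] (toPre D F) = toPre D (D.τ^[n] F) := by
  induction n with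
  | zero => rfl
  | succ n ih => rw [Function.iterate_succ_apply', ih, Function.iterate_succ_apply' D.τ]; rfl

theorem inner_pre (F G : A) : inner 𝕜 (toPre D F) (toPre D G) = D.B F G := rfl

theorem symm_pre (x y : Pre D) : inner 𝕜 (τp D x) y = inner 𝕜 x (τp D y) := D.symm_τ x y

theorem norm_toPre (F : A) : ‖toPre D F‖ = ‖J D F‖ := by
  rw [J_apply, UniformSpace.Completion.norm_coe]

theorem norm_Jτ_le (F : A) : ‖J D (D.τ F)‖ ≤ ‖J D F‖ := by
  obtain ⟨C, hC⟩ := D.bdd F
  have := norm_iter_le (𝕜 := 𝕜) (symm_pre D) (x := toPre D F)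
    (C := C) (q := 1) one_pos
    (fun n => by rw [one_pow, mul_one, τp_iter, inner_pre]; exact hC n) 1
  rw [one_pow, one_mul, τp_iter, Function.iterate_one, norm_toPre, norm_toPre] at this
  exact this

/-- the transfer operator -/
def T : Hil D →L[𝕜] Hil D := ((J D) ∘ₗ D.τ).extendOfNorm (J D)

theorem T_J (F : A) : T D (J D F) = J D (D.τ F) := by
  rw [T, LinearMap.extendOfNorm_eq (denseRange_J D)
    ⟨1, fun x => by rw [one_mul]; exact norm_Jτ_le D x⟩]
  rfl

theorem T_iter_J (F : A) (n : ℕ) : (T D)^[n] (J D F) = J D (D.τ^[n] F) := by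
  induction n with
  | zero => rfl
  | succ n ih => rw [Function.iterate_succ_apply', ih, T_J, ← Function.iterate_succ_apply' D.τ]

theorem norm_T_apply_le (x : Hil D) : ‖T D x‖ ≤ ‖x‖ := by
  refine DenseRange.induction_on (denseRange_J D) x (isClosed_le (by fun_prop) (by fun_prop)) ?_
  intro F; rw [T_J]; exact norm_Jτ_le D F

theorem norm_T_le : ‖T D‖ ≤ 1 :=
  ContinuousLinearMap.opNorm_le_bound _ zero_le_one (fun x => by
    rw [one_mul]; exact norm_T_apply_le D x)

theorem T_symm (x y : Hil D) : inner 𝕜 (T D x) y = inner 𝕜 x (T D y) := by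
  refine DenseRange.induction_on₂ (denseRange_J D) (isClosed_eq (by fun_prop) (by fun_prop)) ?_ x y
  intro F G; rw [T_J, T_J, inner_J, inner_J, D.symm_τ]

theorem isSelfAdjoint_T : IsSelfAdjoint (T D) := by
  rw [ContinuousLinearMap.isSelfAdjoint_iff_isSymmetric]
  intro x y
  exact T_symm D x y

theorem T_Ω : T D (Ω D) = Ω D := by rw [Ω, T_J, D.τ_one]

/-! ### The mass gap -/

/-- the projection onto the orthogonal complement of the invariant vector -/
def pr (x : Hil D) : Hil D := x - (inner 𝕜 (Ω D) x) • Ω D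

theorem inner_Ω_pr (x : Hil D) : inner 𝕜 (Ω D) (pr D x) = 0 := by
  rw [pr, inner_sub_right, inner_smul_right, inner_Ω_Ω, mul_one, sub_self]

theorem pr_of_orth {x : Hil D} (hx : inner 𝕜 (Ω D) x = 0) : pr D x = x := by
  rw [pr, hx, zero_smul, sub_zero]

theorem T_iter_Ω (n : ℕ) : (T D)^[n] (Ω D) = Ω D := by
  induction n with
  | zero => rfl
  | succ n ih => rw [Function.iterate_succ_apply', ih, T_Ω]

theorem inner_Ω_T_iter (x : Hil D) (n : ℕ) : inner 𝕜 (Ω D) ((T D)^[n] x) = inner 𝕜 (Ω D) x := by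
  rw [← iter_symm (T_symm D), T_iter_Ω]

theorem inner_Ω_T (x : Hil D) : inner 𝕜 (Ω D) (T D x) = inner 𝕜 (Ω D) x := inner_Ω_T_iter D x 1

theorem T_iter_pr (x : Hil D) (n : ℕ) : (T D)^[n] (pr D x) = pr D ((T D)^[n] x) := by
  induction n generalizing x with
  | zero => rfl
  | succ n ih =>
    rw [Function.iterate_succ_apply, Function.iterate_succ_apply, ← ih]
    congr 1
    rw [pr, pr, map_sub, map_smul, T_Ω, inner_Ω_T]

theorem T_pr (x : Hil D) : T D (pr D x) = pr D (T D x) := T_iter_pr D x 1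

theorem inner_pr_pr (x y : Hil D) : inner 𝕜 (pr D x) (pr D y)
    = inner 𝕜 x y - inner 𝕜 x (Ω D) * inner 𝕜 (Ω D) y := by
  conv_lhs => rw [pr, inner_sub_left, inner_smul_left, inner_Ω_pr, mul_zero, sub_zero, pr,
    inner_sub_right, inner_smul_right]
  ring

theorem inner_pr_self (x : Hil D) (n : ℕ) : inner 𝕜 (pr D x) ((T D)^[n] (pr D x))
    = inner 𝕜 x ((T D)^[n] x) - ((‖inner 𝕜 x (Ω D)‖ ^ 2 : ℝ) : 𝕜) := by
  rw [T_iter_pr, inner_pr_pr, inner_Ω_T_iter, ← inner_conj_symm (Ω D) x, mul_conj,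
    ofReal_pow]

/-- the truncated correlation of an observable with its shift -/
def corr (F : A) (n : ℕ) : 𝕜 := D.B F (D.τ^[n] F) - ((‖D.B F D.one‖ ^ 2 : ℝ) : 𝕜)

theorem corr_eq (F : A) (n : ℕ) :
    corr D F n = inner 𝕜 (pr D (J D F)) ((T D)^[n] (pr D (J D F))) := by
  rw [inner_pr_self, T_iter_J, inner_J, Ω, inner_J, corr]

theorem corr_zero (F : A) : corr D F 0 = ((‖pr D (J D F)‖ ^ 2 : ℝ) : 𝕜) := by
  rw [corr_eq, Function.iterate_zero, id, inner_self_eq_norm_sq_to_K, ofReal_pow]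

/-- exponential clustering with mass `m`, with constants depending on the observable -/
def Clust (m : ℝ) : Prop := ∀ F, ∃ C : ℝ, ∀ n : ℕ, ‖corr D F n‖ ≤ C * Real.exp (-(m * n))

variable {D}

theorem exp_pow (m : ℝ) (n : ℕ) : Real.exp (-(m * n)) = Real.exp (-m) ^ n := by
  rw [← Real.exp_nat_mul]; congr 1; ring

theorem norm_T_pr_J_le {m : ℝ} (h : Clust D m) (F : A) (n : ℕ) :
    ‖(T D)^[n] (pr D (J D F))‖ ≤ Real.exp (-m) ^ n * ‖pr D (J D F)‖ := by
  obtain ⟨C, hC⟩ := h F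
  refine norm_iter_le (T_symm D) (C := C) (Real.exp_pos _) (fun n => ?_) n
  rw [← corr_eq, ← exp_pow]
  exact hC n

/-- **exponential clustering with the optimal constant** -/
theorem corr_le {m : ℝ} (h : Clust D m) (F : A) (n : ℕ) :
    ‖corr D F n‖ ≤ Real.exp (-(m * n)) * re (corr D F 0) := by
  obtain ⟨C, hC⟩ := h F
  rw [corr_zero, ofReal_re, exp_pow, corr_eq]
  refine corr_iter_le (T_symm D) (C := C) (Real.exp_pos _) (fun n => ?_) n
  rw [← corr_eq, ← exp_pow]
  exact hC n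

/-- **the mass gap of the transfer operator** -/
theorem norm_T_le_of_orth {m : ℝ} (h : Clust D m) {x : Hil D} (hx : inner 𝕜 (Ω D) x = 0) :
    ‖T D x‖ ≤ Real.exp (-m) * ‖x‖ := by
  have key : ∀ y, ‖T D (pr D y)‖ ≤ Real.exp (-m) * ‖pr D y‖ := by
    intro y
    refine DenseRange.induction_on (denseRange_J D) y
      (isClosed_le (by unfold pr; fun_prop) (by unfold pr; fun_prop)) ?_
    intro F
    have := norm_T_pr_J_le h F 1
    rwa [pow_one] at this
  have := key x
  rwa [pr_of_orth D hx] at this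

theorem eq_of_T_eq {m : ℝ} (hm : 0 < m) (h : Clust D m) {x : Hil D} (hx : T D x = x) :
    x = (inner 𝕜 (Ω D) x) • Ω D := by
  have h1 : T D (pr D x) = pr D x := by rw [T_pr, hx]
  have h2 := norm_T_le_of_orth h (inner_Ω_pr D x)
  rw [h1] at h2
  have h3 : Real.exp (-m) < 1 := by rw [Real.exp_lt_one_iff]; linarith
  have h4 : ‖pr D x‖ = 0 := by nlinarith [norm_nonneg (pr D x)]
  rw [norm_eq_zero, pr, sub_eq_zero] at h4
  exact h4

/-- invertibility of `z - (P + S)` for an idempotent `P` with `P S = 0` -/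
theorem isUnit_aux {K R : Type*} [Field K] [Ring R] [Algebra K R] {P S : R} {z : K}
    (hz0 : z ≠ 0) (hz1 : z ≠ 1) (hPP : P * P = P) (hPS : P * S = 0)
    (hS : IsUnit (algebraMap K R z - S)) : IsUnit (algebraMap K R z - (P + S)) := by
  have hz1' : z - 1 ≠ 0 := sub_ne_zero.mpr hz1
  set Z := algebraMap K R z with hZ
  set Y := algebraMap K R z⁻¹ with hY
  set X := algebraMap K R (z - 1)⁻¹ with hX
  have cZP : Z * P = P * Z := Algebra.commutes z P
  have cYP : Y * P = P * Y := Algebra.commutes _ P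
  have cXP : X * P = P * X := Algebra.commutes _ P
  have hZY : Z * Y = 1 := by rw [hZ, hY, ← map_mul, mul_inv_cancel₀ hz0, map_one]
  have hYZ : Y * Z = 1 := by rw [hZ, hY, ← map_mul, inv_mul_cancel₀ hz0, map_one]
  have hZX : (Z - 1) * X = 1 := by
    rw [hZ, hX, ← map_one (algebraMap K R), ← map_sub, ← map_mul, mul_inv_cancel₀ hz1', map_one]
  have hXZ : X * (Z - 1) = 1 := by
    rw [hZ, hX, ← map_one (algebraMap K R), ← map_sub, ← map_mul, inv_mul_cancel₀ hz1', map_one]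
  have hU1 : IsUnit (Z - P) := by
    refine ⟨⟨Z - P, Y * (1 - P) + X * P, ?_, ?_⟩, rfl⟩
    · have e : (Z - P) * (Y * (1 - P) + X * P)
          = Z * Y * (1 - P) - (P * Y) * (1 - P) + Z * X * P - (P * X) * P := by noncomm_ring
      rw [e, ← cYP, ← cXP, hZY, mul_assoc Y, mul_assoc X, mul_sub P, hPP, mul_one, sub_self,
        mul_zero]
      have e2 : 1 * (1 - P) - 0 + Z * X * P - X * P = 1 - P + (Z - 1) * X * P := by noncomm_ring
      rw [e2, hZX]; noncomm_ring
    · have e : (Y * (1 - P) + X * P) * (Z - P)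
          = Y * Z - Y * (P * Z) - Y * (P - P * P) + X * (P * Z) - X * (P * P) := by noncomm_ring
      rw [e, ← cZP, hPP, sub_self, mul_zero]
      have e2 : Y * Z - Y * (Z * P) - 0 + X * (Z * P) - X * P
          = Y * Z - (Y * Z) * P + (X * (Z - 1)) * P := by noncomm_ring
      rw [e2, hYZ, hXZ]; noncomm_ring
  have hfac : Z - (P + S) = Y * ((Z - P) * (Z - S)) := by
    have e : (Z - P) * (Z - S) = Z * (Z - (P + S)) + (Z * P - P * Z) + P * S := by noncomm_ring
    rw [e, cZP, sub_self, hPS, add_zero, add_zero, ← mul_assoc, hYZ, one_mul]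
  rw [hfac]
  exact (IsUnit.map (algebraMap K R) (isUnit_iff_ne_zero.mpr (inv_ne_zero hz0))).mul
    (hU1.mul hS)

/-- **the spectrum of the transfer operator** -/
theorem spectrum_T {m : ℝ} (h : Clust D m) {z : 𝕜} (hz : z ∈ spectrum 𝕜 (T D)) :
    z = 1 ∨ ‖z‖ ≤ Real.exp (-m) := by
  by_contra hcon
  push Not at hcon
  obtain ⟨hz1, hzq⟩ := hcon
  set q := Real.exp (-m) with hq
  have hq0 : 0 < q := Real.exp_pos _
  have hz0 : z ≠ 0 := by rintro rfl; rw [norm_zero] at hzq; linarith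
  -- the projection onto `Ω`
  let P : Hil D →L[𝕜] Hil D := (innerSL 𝕜 (Ω D)).smulRight (Ω D)
  have hP : ∀ x, P x = (inner 𝕜 (Ω D) x) • Ω D := fun x => by simp [P]
  let S : Hil D →L[𝕜] Hil D := (T D) * (1 - P)
  have hS : ∀ x, S x = T D (pr D x) := fun x => by
    simp only [S, mul_apply_eq_comp, sub_apply,
      one_apply_eq_self, hP]; rfl
  have hprn : ∀ x, ‖pr D x‖ ≤ ‖x‖ := by
    intro x
    have h1 : ‖x‖ ^ 2 = ‖pr D x‖ ^ 2 + ‖inner 𝕜 (Ω D) x‖ ^ 2 := by
      have e : x = pr D x + (inner 𝕜 (Ω D) x) • Ω D := by rw [pr]; abel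
      have o : inner 𝕜 (pr D x) ((inner 𝕜 (Ω D) x) • Ω D) = 0 := by
        rw [inner_smul_right, ← inner_conj_symm (pr D x), inner_Ω_pr, map_zero, mul_zero]
      have h2 := norm_add_sq_eq_norm_sq_add_norm_sq_of_inner_eq_zero _ _ o
      rw [← e, norm_smul, norm_Ω, mul_one] at h2
      nlinarith [h2]
    have h2 : ‖pr D x‖ ^ 2 ≤ ‖x‖ ^ 2 := by rw [h1]; nlinarith [sq_nonneg ‖inner 𝕜 (Ω D) x‖]
    exact le_of_sq_le h2 (norm_nonneg _)
  have hSn : ‖S‖ ≤ q := by
    refine ContinuousLinearMap.opNorm_le_bound _ hq0.le (fun x => ?_)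
    rw [hS]
    exact le_trans (norm_T_le_of_orth h (inner_Ω_pr D x))
      (mul_le_mul_of_nonneg_left (hprn x) hq0.le)
  have hTPS : T D = P + S := by
    ext x
    rw [add_apply, hP, hS, T_pr, pr, inner_Ω_T]
    abel
  have hPS : P * S = 0 := by
    ext x
    rw [mul_apply_eq_comp, hP, hS, inner_Ω_T, inner_Ω_pr, zero_smul]; rfl
  have hPP : P * P = P := by
    ext x
    rw [mul_apply_eq_comp, hP, hP, inner_smul_right, inner_Ω_Ω, mul_one]
  apply spectrum.notMem_iff.mpr _ hz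
  rw [hTPS]
  refine isUnit_aux hz0 hz1 hPP hPS ?_
  have : z ∉ spectrum 𝕜 S := fun hzS => by
    have h1 := spectrum.norm_le_norm_mul_of_mem hzS
    have h2 : ‖(1 : Hil D →L[𝕜] Hil D)‖ ≤ 1 := ContinuousLinearMap.norm_id_le
    have h3 : ‖S‖ * ‖(1 : Hil D →L[𝕜] Hil D)‖ ≤ q * 1 :=
      mul_le_mul hSn h2 (norm_nonneg _) hq0.le
    linarith
  exact spectrum.notMem_iff.mp this

/-- **the upper bound of the gap from one observable** -/
theorem not_gap {m₂ : ℝ} {F : A} (h0 : 0 < re (corr D F 0))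
    (h1 : Real.exp (-(2 * m₂)) * re (corr D F 0) ≤ re (corr D F 2)) {q : ℝ}
    (hq : q < Real.exp (-m₂)) :
    ¬ ∀ x : Hil D, inner 𝕜 (Ω D) x = 0 → ‖T D x‖ ≤ q * ‖x‖ := by
  intro hcon
  have h2 := hcon _ (inner_Ω_pr D (J D F))
  have h3 : re (corr D F 2) = ‖T D (pr D (J D F))‖ ^ 2 := by
    rw [corr_eq, Function.iterate_succ_apply', Function.iterate_one, ← T_symm,
      inner_self_eq_norm_sq]
  rw [h3] at h1
  rw [corr_zero, ofReal_re] at h0 h1
  have h4 : Real.exp (-(2 * m₂)) = Real.exp (-m₂) ^ 2 := by rw [← Real.exp_nat_mul]; congr 1; push_cast; ring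
  rw [h4, ← mul_pow] at h1
  have h5 : Real.exp (-m₂) * ‖pr D (J D F)‖ ≤ ‖T D (pr D (J D F))‖ :=
    le_of_sq_le h1 (norm_nonneg _)
  have h6 : 0 < ‖pr D (J D F)‖ := by
    rcases (norm_nonneg (pr D (J D F))).eq_or_lt with h | h
    · rw [← h] at h0; simp at h0
    · exact h
  nlinarith

/-- **the reconstruction theorem**, as an existence statement -/
theorem exists_hilbert {m : ℝ} (D : Data 𝕜 A) (h : Clust D m) :
    ∃ (H : Type v) (_ : NormedAddCommGroup H) (_ : InnerProductSpace 𝕜 H) (_ : CompleteSpace H)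
      (J : A →ₗ[𝕜] H) (T : H →L[𝕜] H), DenseRange J ∧
      (∀ F G, inner 𝕜 (J F) (J G) = D.B F G) ∧ (∀ F, T (J F) = J (D.τ F)) ∧
      IsSelfAdjoint T ∧ ‖T‖ ≤ 1 ∧ ‖J D.one‖ = 1 ∧ T (J D.one) = J D.one ∧
      (∀ x, inner 𝕜 (J D.one) x = 0 → ‖T x‖ ≤ Real.exp (-m) * ‖x‖) ∧
      (∀ z ∈ spectrum 𝕜 T, z = 1 ∨ ‖z‖ ≤ Real.exp (-m)) ∧
      (∀ (F : A) (m₂ q : ℝ), 0 < re (corr D F 0) →
        Real.exp (-(2 * m₂)) * re (corr D F 0) ≤ re (corr D F 2) → q < Real.exp (-m₂) →
        ¬ ∀ x, inner 𝕜 (J D.one) x = 0 → ‖T x‖ ≤ q * ‖x‖) :=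
  ⟨Hil D, inferInstance, inferInstance, inferInstance, J D, T D, denseRange_J D, inner_J D,
    T_J D, isSelfAdjoint_T D, norm_T_le D, norm_Ω D, T_Ω D, fun _ hx => norm_T_le_of_orth h hx,
    fun _ hz => spectrum_T h hz, fun _ _ _ h0 h1 hq => not_gap h0 h1 hq⟩

/-! ### Complexification of real data -/

section Complex

variable {A : Type v} [AddCommGroup A] [Module ℝ A]

/-- the complexification of a real vector space -/
def Cx (A : Type v) : Type v := A × A

instance : AddCommGroup (Cx A) := inferInstanceAs (AddCommGroup (A × A))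

/-- the element `a + i b` of the complexification -/
def toCx (a b : A) : Cx A := (a, b)

instance : SMul ℂ (Cx A) :=
  ⟨fun z p => toCx (z.re • p.1 - z.im • p.2) (z.re • p.2 + z.im • p.1)⟩

omit [Module ℝ A] [AddCommGroup A] in
theorem toCx_fst (a b : A) : (toCx a b).1 = a := rfl
omit [Module ℝ A] [AddCommGroup A] in
theorem toCx_snd (a b : A) : (toCx a b).2 = b := rfl

theorem cx_smul_fst (z : ℂ) (p : Cx A) : (z • p).1 = z.re • p.1 - z.im • p.2 := rfl
theorem cx_smul_snd (z : ℂ) (p : Cx A) : (z • p).2 = z.re • p.2 + z.im • p.1 := rfl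
omit [Module ℝ A] in
theorem cx_add_fst (p q : Cx A) : (p + q).1 = p.1 + q.1 := rfl
omit [Module ℝ A] in
theorem cx_add_snd (p q : Cx A) : (p + q).2 = p.2 + q.2 := rfl
omit [Module ℝ A] in
theorem cx_zero_fst : (0 : Cx A).1 = 0 := rfl
omit [Module ℝ A] in
theorem cx_zero_snd : (0 : Cx A).2 = 0 := rfl

omit [Module ℝ A] [AddCommGroup A] in
theorem cx_ext {p q : Cx A} (h1 : p.1 = q.1) (h2 : p.2 = q.2) : p = q := Prod.ext h1 h2

instance : Module ℂ (Cx A) where
  one_smul p := by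
    apply cx_ext
    · simp [cx_smul_fst]
    · simp [cx_smul_snd]
  mul_smul z w p := by
    apply cx_ext
    · simp only [cx_smul_fst, cx_smul_snd, Complex.mul_re, Complex.mul_im]; module
    · simp only [cx_smul_fst, cx_smul_snd, Complex.mul_re, Complex.mul_im]; module
  smul_zero z := by
    apply cx_ext
    · simp [cx_smul_fst, cx_zero_fst, cx_zero_snd]
    · simp [cx_smul_snd, cx_zero_fst, cx_zero_snd]
  smul_add z p q := by
    apply cx_ext
    · simp only [cx_smul_fst, cx_add_fst, cx_add_snd]; module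
    · simp only [cx_smul_snd, cx_add_fst, cx_add_snd]; module
  add_smul z w p := by
    apply cx_ext
    · simp only [cx_smul_fst, cx_add_fst, Complex.add_re, Complex.add_im]; module
    · simp only [cx_smul_snd, cx_add_snd, Complex.add_re, Complex.add_im]; module
  zero_smul p := by
    apply cx_ext
    · simp [cx_smul_fst, cx_zero_fst]
    · simp [cx_smul_snd, cx_zero_snd]

theorem B_symm (D : Data ℝ A) (F G : A) : D.B F G = D.B G F := by
  have := D.symm F G
  simpa using this.symm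

theorem B_add_right (D : Data ℝ A) (F G G' : A) : D.B F (G + G') = D.B F G + D.B F G' := by
  rw [B_symm, D.add_left, B_symm D G, B_symm D G']

theorem B_smul_left (D : Data ℝ A) (F G : A) (r : ℝ) : D.B (r • F) G = r * D.B F G := by
  rw [D.smul_left]; simp

theorem B_smul_right (D : Data ℝ A) (F G : A) (r : ℝ) : D.B F (r • G) = r * D.B F G := by
  rw [B_symm, B_smul_left, B_symm D G]

theorem B_zero_right (D : Data ℝ A) (F : A) : D.B F 0 = 0 := by
  have := B_smul_right D F 0 0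
  simpa using this

theorem B_zero_left (D : Data ℝ A) (F : A) : D.B 0 F = 0 := by
  rw [B_symm, B_zero_right]

theorem B_neg_left (D : Data ℝ A) (F G : A) : D.B (-F) G = - D.B F G := by
  have := B_smul_left D F G (-1)
  simpa using this

theorem B_neg_right (D : Data ℝ A) (F G : A) : D.B F (-G) = - D.B F G := by
  rw [B_symm, B_neg_left, B_symm]

theorem B_sub_left (D : Data ℝ A) (F F' G : A) : D.B (F - F') G = D.B F G - D.B F' G := by
  rw [sub_eq_add_neg, D.add_left, B_neg_left, sub_eq_add_neg]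

theorem B_τ_iter (D : Data ℝ A) (F G : A) (n : ℕ) : D.B (D.τ^[n] F) G = D.B F (D.τ^[n] G) := by
  induction n generalizing F G with
  | zero => rfl
  | succ n ih => rw [Function.iterate_succ_apply', D.symm_τ, ih, ← Function.iterate_succ_apply]

/-- `τ` on the complexification -/
def cxτ (D : Data ℝ A) : Cx A →ₗ[ℂ] Cx A where
  toFun p := toCx (D.τ p.1) (D.τ p.2)
  map_add' p q := by
    apply cx_ext
    · exact map_add D.τ p.1 q.1
    · exact map_add D.τ p.2 q.2
  map_smul' z p := by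
    apply cx_ext
    · simp [cx_smul_fst, toCx_fst, toCx_snd]
    · simp [cx_smul_snd, toCx_fst, toCx_snd]

theorem cxτ_iter (D : Data ℝ A) (p : Cx A) (n : ℕ) :
    (cxτ D)^[n] p = toCx (D.τ^[n] p.1) (D.τ^[n] p.2) := by
  induction n with
  | zero => rfl
  | succ n ih =>
    rw [Function.iterate_succ_apply', ih, Function.iterate_succ_apply',
      Function.iterate_succ_apply']; rfl

/-- the form on the complexification -/
def cxB (D : Data ℝ A) (p q : Cx A) : ℂ :=
  ⟨D.B p.1 q.1 + D.B p.2 q.2, D.B p.1 q.2 - D.B p.2 q.1⟩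

theorem cxB_iter (D : Data ℝ A) (p : Cx A) (n : ℕ) :
    cxB D p ((cxτ D)^[n] p) = ((D.B p.1 (D.τ^[n] p.1) + D.B p.2 (D.τ^[n] p.2) : ℝ) : ℂ) := by
  rw [cxτ_iter]
  apply Complex.ext
  · simp [cxB, toCx_fst, toCx_snd]
  · simp only [cxB, Complex.ofReal_im, toCx_fst, toCx_snd]
    rw [← B_τ_iter, B_symm, sub_self]

/-- **the complexification of real data** -/
def cx (D : Data ℝ A) : Data ℂ (Cx A) where
  B := cxB D
  symm p q := by
    apply Complex.ext
    · simp only [cxB, Complex.conj_re]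
      rw [B_symm D q.1, B_symm D q.2]
    · simp only [cxB, Complex.conj_im]
      rw [B_symm D q.1, B_symm D q.2]; ring
  nonneg p := by
    have h1 := D.nonneg p.1
    have h2 := D.nonneg p.2
    simp only [re_to_real] at h1 h2
    simp only [cxB, re_to_complex]
    exact add_nonneg h1 h2
  add_left p q r := by
    apply Complex.ext
    · simp only [cxB, cx_add_fst, cx_add_snd, D.add_left, Complex.add_re]; ring
    · simp only [cxB, cx_add_fst, cx_add_snd, D.add_left, Complex.add_im]; ring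
  smul_left p q z := by
    apply Complex.ext
    · simp only [cxB, cx_smul_fst, cx_smul_snd, D.add_left, B_sub_left, B_smul_left,
        Complex.mul_re, Complex.conj_re, Complex.conj_im]; ring
    · simp only [cxB, cx_smul_fst, cx_smul_snd, D.add_left, B_sub_left, B_smul_left,
        Complex.mul_im, Complex.conj_re, Complex.conj_im]; ring
  τ := cxτ D
  symm_τ p q := by
    apply Complex.ext
    · change D.B (D.τ p.1) q.1 + D.B (D.τ p.2) q.2 = D.B p.1 (D.τ q.1) + D.B p.2 (D.τ q.2)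
      rw [D.symm_τ, D.symm_τ]
    · change D.B (D.τ p.1) q.2 - D.B (D.τ p.2) q.1 = D.B p.1 (D.τ q.2) - D.B p.2 (D.τ q.1)
      rw [D.symm_τ, D.symm_τ]
  one := toCx D.one 0
  τ_one := by
    apply cx_ext
    · exact D.τ_one
    · exact map_zero D.τ
  B_one := by
    apply Complex.ext
    · simp [cxB, toCx_fst, toCx_snd, D.B_one, B_zero_right]
    · simp [cxB, toCx_fst, toCx_snd, B_zero_right, B_zero_left]
  bdd p := by
    obtain ⟨C, hC⟩ := D.bdd p.1
    obtain ⟨C', hC'⟩ := D.bdd p.2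
    refine ⟨C + C', fun n => ?_⟩
    rw [cxB_iter, Complex.norm_real]
    exact le_trans (norm_add_le _ _) (add_le_add (hC n) (hC' n))

theorem corr_cx (D : Data ℝ A) (p : Cx A) (n : ℕ) :
    corr (cx D) p n = ((corr D p.1 n + corr D p.2 n : ℝ) : ℂ) := by
  have h1 : ‖cxB D p (toCx D.one 0)‖ ^ 2 = ‖D.B p.1 D.one‖ ^ 2 + ‖D.B p.2 D.one‖ ^ 2 := by
    rw [← Complex.normSq_eq_norm_sq, Complex.normSq_apply]
    simp only [cxB, toCx_fst, toCx_snd, B_zero_right, add_zero, zero_sub, Real.norm_eq_abs, sq_abs]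
    ring
  change cxB D p ((cxτ D)^[n] p) - ((‖cxB D p (toCx D.one 0)‖ ^ 2 : ℝ) : ℂ) = _
  rw [cxB_iter, h1, corr, corr]
  simp only [ofReal_real_eq_id, id_eq]
  push_cast
  ring

theorem clust_cx {D : Data ℝ A} {m : ℝ} (h : Clust D m) : Clust (cx D) m := by
  intro p
  obtain ⟨C, hC⟩ := h p.1
  obtain ⟨C', hC'⟩ := h p.2
  refine ⟨C + C', fun n => ?_⟩
  rw [corr_cx, Complex.norm_real, add_mul]
  exact le_trans (norm_add_le _ _) (add_le_add (hC n) (hC' n))

/-- constructor for real data -/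
def mkReal (B : A → A → ℝ) (symm : ∀ F G, B F G = B G F) (nonneg : ∀ F, 0 ≤ B F F)
    (add_left : ∀ F F' G, B (F + F') G = B F G + B F' G)
    (smul_left : ∀ (r : ℝ) F G, B (r • F) G = r * B F G)
    (τ : A →ₗ[ℝ] A) (symm_τ : ∀ F G, B (τ F) G = B F (τ G)) (one : A) (τ_one : τ one = one)
    (B_one : B one one = 1) (bdd : ∀ F, ∃ C : ℝ, ∀ n : ℕ, |B F (τ^[n] F)| ≤ C) : Data ℝ A where
  B := B
  symm F G := by rw [conj_trivial]; exact symm G F
  nonneg F := by rw [re_to_real]; exact nonneg F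
  add_left := add_left
  smul_left F G r := by rw [conj_trivial]; exact smul_left r F G
  τ := τ
  symm_τ := symm_τ
  one := one
  τ_one := τ_one
  B_one := B_one
  bdd F := by simpa only [Real.norm_eq_abs] using bdd F

theorem corr_real (D : Data ℝ A) (F : A) (n : ℕ) :
    corr D F n = D.B F (D.τ^[n] F) - D.B F D.one ^ 2 := by
  rw [corr, Real.norm_eq_abs, sq_abs]; rfl

theorem corr_two (D : Data ℝ A) (F : A) :
    corr D F 2 = D.B (D.τ F) (D.τ F) - D.B F D.one ^ 2 := by
  rw [corr_real, D.symm_τ]; rfl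

theorem clust_real {D : Data ℝ A} {m : ℝ} (h : ∀ F, ∃ C : ℝ, ∀ n : ℕ,
    |D.B F (D.τ^[n] F) - D.B F D.one ^ 2| ≤ C * Real.exp (-(m * n))) : Clust D m := by
  intro F
  obtain ⟨C, hC⟩ := h F
  refine ⟨C, fun n => ?_⟩
  rw [corr_real, Real.norm_eq_abs]; exact hC n

/-- **exponential clustering with the optimal constant**, real form -/
theorem corr_le_real {D : Data ℝ A} {m : ℝ} (h : Clust D m) (F : A) (n : ℕ) :
    |D.B F (D.τ^[n] F) - D.B F D.one ^ 2|
      ≤ Real.exp (-(m * n)) * (D.B F F - D.B F D.one ^ 2) := by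
  have := corr_le h F n
  rw [re_to_real, corr_real, corr_real, Real.norm_eq_abs] at this
  exact this

/-- **the complex reconstruction theorem** for real observables: a complex Hilbert space, with a
self-adjoint transfer operator -/
theorem exists_complex_hilbert {m : ℝ} (D : Data ℝ A) (h : Clust D m) :
    ∃ (H : Type v) (_ : NormedAddCommGroup H) (_ : InnerProductSpace ℂ H) (_ : CompleteSpace H)
      (J : A → H) (T : H →L[ℂ] H), (∀ F G, J (F + G) = J F + J G) ∧
      (∀ (r : ℝ) F, J (r • F) = (r : ℂ) • J F) ∧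
      Dense (Submodule.span ℂ (Set.range J) : Set H) ∧
      (∀ F G, inner ℂ (J F) (J G) = (D.B F G : ℂ)) ∧ (∀ F, T (J F) = J (D.τ F)) ∧
      IsSelfAdjoint T ∧ ‖T‖ ≤ 1 ∧ ‖J D.one‖ = 1 ∧ T (J D.one) = J D.one ∧
      (∀ x, inner ℂ (J D.one) x = 0 → ‖T x‖ ≤ Real.exp (-m) * ‖x‖) ∧
      (∀ z ∈ spectrum ℂ T, z = 1 ∨ ‖z‖ ≤ Real.exp (-m)) ∧
      (∀ (F : A) (m₂ q : ℝ), 0 < corr D F 0 →
        Real.exp (-(2 * m₂)) * corr D F 0 ≤ corr D F 2 → q < Real.exp (-m₂) →
        ¬ ∀ x, inner ℂ (J D.one) x = 0 → ‖T x‖ ≤ q * ‖x‖) := by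
  have hc := clust_cx h
  have hsplit : ∀ p : Cx A, p = toCx p.1 0 + Complex.I • toCx p.2 0 := by
    intro p
    apply cx_ext
    · simp [cx_smul_fst, cx_add_fst, toCx_fst, toCx_snd]
    · simp [cx_smul_snd, cx_add_snd, toCx_fst, toCx_snd]
  refine ⟨Hil (cx D), inferInstance, inferInstance, inferInstance,
    fun F => J (cx D) (toCx F 0), T (cx D), ?_, ?_, ?_, ?_, ?_, isSelfAdjoint_T _,
    norm_T_le _, norm_Ω (cx D), T_Ω (cx D), fun _ hx => norm_T_le_of_orth hc hx,
    fun _ hz => spectrum_T hc hz, ?_⟩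
  · intro F G
    have e : toCx (F + G) 0 = toCx F 0 + toCx G 0 := by
      apply cx_ext
      · rfl
      · simp [cx_add_snd, toCx_snd]
    change J (cx D) (toCx (F + G) 0) = J (cx D) (toCx F 0) + J (cx D) (toCx G 0)
    rw [e, map_add]
  · intro r F
    have e : toCx (r • F) 0 = (r : ℂ) • toCx F 0 := by
      apply cx_ext
      · rw [cx_smul_fst, toCx_fst, toCx_fst, toCx_snd, Complex.ofReal_re, smul_zero, sub_zero]
      · rw [cx_smul_snd, toCx_fst, toCx_snd, toCx_snd, Complex.ofReal_im, smul_zero, zero_smul,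
          add_zero]
    change J (cx D) (toCx (r • F) 0) = (r : ℂ) • J (cx D) (toCx F 0)
    rw [e, map_smul]
  · refine (denseRange_J (cx D)).mono ?_
    rintro _ ⟨p, rfl⟩
    rw [hsplit p, map_add, map_smul]
    exact Submodule.add_mem _ (Submodule.subset_span ⟨p.1, rfl⟩)
      (Submodule.smul_mem _ _ (Submodule.subset_span ⟨p.2, rfl⟩))
  · intro F G
    rw [inner_J]
    apply Complex.ext
    · change D.B F G + D.B 0 0 = _
      rw [B_zero_right, add_zero, Complex.ofReal_re]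
    · change D.B F 0 - D.B 0 G = _
      rw [B_zero_right, B_zero_left, sub_zero, Complex.ofReal_im]
  · intro F
    rw [T_J]; congr 1
    apply cx_ext
    · rfl
    · exact map_zero D.τ
  · intro F m₂ q h0 h1 hq
    have hz : ∀ n, corr D (0 : A) n = 0 := by
      intro n
      rw [corr, B_zero_left, B_zero_left]; simp
    have e : ∀ n, re (corr (cx D) (toCx F 0) n) = corr D F n := by
      intro n
      rw [corr_cx]
      change ((corr D F n + corr D 0 n : ℝ) : ℂ).re = _
      rw [hz, add_zero, Complex.ofReal_re]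
    exact not_gap (F := (toCx F 0)) (by rw [e]; exact h0) (by rw [e, e]; exact h1) hq

end Complex

end Pool.Agent.N453.OS
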