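import Pool.Agent.N604.MW.Stm13
import Pool.Agent.H442R2.EHI.PntErr

/-! AP/PPNT (helper453): the prime number theorem with log powers, from `thetaU` (H442R2/EHI/PntErr,
helper381). -/

set_option autoImplicit false

open Finset

namespace Pool.Agent.N453.AP

open Pool.Agent.N604.MW

/-- **AP/PPNT** -/
theorem ppnt : S_PPNT := by
  intro B
  obtain ⟨C, hC, h⟩ := Pool.Agent.H442R2.EHI.PntErrAux.thetaU B
  refine ⟨C, hC, fun N hN => ?_⟩
  have e : ∑ p ∈ range (N + 1), lam p = Chebyshev.theta (N : ℝ) := by
    rw [Chebyshev.theta, Nat.floor_natCast]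
    rw [Finset.sum_filter]
    have h2 : ∑ p ∈ range (N + 1), lam p = ∑ p ∈ Ioc 0 N, lam p := by
      rw [Finset.sum_range_succ' ]
      have h0 : lam 0 = 0 := by simp [lam]
      rw [h0, add_zero]
      have : Ioc 0 N = (range N).image (fun n => n + 1) := by
        ext i
        simp only [mem_Ioc, mem_image, mem_range]
        constructor
        · intro hi; exact ⟨i - 1, by omega, by omega⟩
        · rintro ⟨j, hj, rfl⟩; omega
      rw [this, sum_image (fun a _ b _ hab => by simpa using hab)]
    rw [h2]
    refine Finset.sum_congr rfl fun p _ => ?_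
    simp [lam]
  rw [e]
  exact h N hN

end Pool.Agent.N453.AP
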