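import Pool.Agent.N453.OS

/-! Abstract Osterwalder–Schrader reconstruction: arbitrary representations over `ℂ`. -/

set_option autoImplicit false
set_option linter.unusedSectionVars false

open scoped ComplexConjugate InnerProductSpace

noncomputable section

namespace Pool.Agent.N986.SL

open Pool.Agent.N453.OS

structure OSForm {A : Type*} [AddCommGroup A] [Module ℂ A] (B : A → A → ℂ) (τ : A →ₗ[ℂ] A) : Prop where
  add : ∀ F F' F'', B F (F' + F'') = B F F' + B F F''
  smul : ∀ (a : ℂ) F F', B F (a • F') = a * B F F'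
  symm : ∀ F F', B F F' = conj (B F' F)
  pos : ∀ F, 0 ≤ (B F F).re
  tau : ∀ F F', B (τ F) F' = B F (τ F')

namespace OSaux

variable {A : Type} [AddCommGroup A] [Module ℂ A] {B : A → A → ℂ} {τ : A →ₗ[ℂ] A}

/-- the pre-Hilbert space -/
@[nolint unusedArguments]
def Pre0 (_ : OSForm B τ) : Type := A

variable (h : OSForm B τ)

instance : AddCommGroup (Pre0 h) := inferInstanceAs (AddCommGroup A)

instance : Module ℂ (Pre0 h) := inferInstanceAs (Module ℂ A)

include h in
theorem add_left0 (x y z : A) : B (x + y) z = B x z + B y z := by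
  rw [h.symm, h.add, map_add, ← h.symm, ← h.symm]

include h in
theorem smul_left0 (x y : A) (r : ℂ) : B (r • x) y = conj r * B x y := by
  rw [h.symm, h.smul, map_mul, ← h.symm]

/-- the semi inner product -/
abbrev core0 : PreInnerProductSpace.Core ℂ (Pre0 h) where
  inner x y := B x y
  conj_inner_symm x y := (h.symm x y).symm
  re_inner_nonneg x := h.pos x
  add_left x y z := add_left0 h x y z
  smul_left x y r := smul_left0 h x y r

instance : SeminormedAddCommGroup (Pre0 h) :=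
  InnerProductSpace.Core.toSeminormedAddCommGroup (c := core0 h)

instance : InnerProductSpace ℂ (Pre0 h) := InnerProductSpace.ofCore (core0 h)

/-- the Hilbert space -/
abbrev Hil0 : Type := UniformSpace.Completion (Pre0 h)

/-- the map from observables to vectors -/
def J0 : A →ₗ[ℂ] Hil0 h :=
  (UniformSpace.Completion.toComplL : Pre0 h →L[ℂ] Hil0 h).toLinearMap ∘ₗ
    (LinearMap.id : A →ₗ[ℂ] A)

/-- an observable as an element of the pre-Hilbert space -/
def toPre0 (F : A) : Pre0 h := F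

theorem J0_apply (F : A) : J0 h F = ((toPre0 h F : Pre0 h) : Hil0 h) := rfl

theorem denseRange_J0 : DenseRange (J0 h) :=
  (UniformSpace.Completion.denseRange_coe : DenseRange ((↑) : Pre0 h → Hil0 h))

theorem inner_J0 (F G : A) : inner ℂ (J0 h F) (J0 h G) = B F G := by
  rw [J0_apply, J0_apply, UniformSpace.Completion.inner_coe]; rfl

/-- `τ` on the pre-Hilbert space -/
def τp0 : Pre0 h → Pre0 h := fun x => toPre0 h (τ x)

theorem τp0_iter (F : A) (n : ℕ) : (τp0 h)^[n] (toPre0 h F) = toPre0 h (τ^[n] F) := by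
  induction n with
  | zero => rfl
  | succ n ih => rw [Function.iterate_succ_apply', ih, Function.iterate_succ_apply' τ]; rfl

theorem inner_pre0 (F G : A) : inner ℂ (toPre0 h F) (toPre0 h G) = B F G := rfl

theorem symm_pre0 (x y : Pre0 h) : inner ℂ (τp0 h x) y = inner ℂ x (τp0 h y) := h.tau x y

theorem norm_toPre0 (F : A) : ‖toPre0 h F‖ = ‖J0 h F‖ := by
  rw [J0_apply, UniformSpace.Completion.norm_coe]

theorem norm_J0τ_le (hb : ∀ F, ∃ C : ℝ, ∀ n : ℕ, ‖B F (τ^[n] F)‖ ≤ C) (F : A) :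
    ‖J0 h (τ F)‖ ≤ ‖J0 h F‖ := by
  obtain ⟨C, hC⟩ := hb F
  have := norm_iter_le (𝕜 := ℂ) (symm_pre0 h) (x := toPre0 h F)
    (C := C) (q := 1) one_pos
    (fun n => by rw [one_pow, mul_one, τp0_iter, inner_pre0]; exact hC n) 1
  rw [one_pow, one_mul, τp0_iter, Function.iterate_one, norm_toPre0, norm_toPre0] at this
  exact this

end OSaux

open OSaux

theorem exists_os {A : Type} [AddCommGroup A] [Module ℂ A] {B : A → A → ℂ} {τ : A →ₗ[ℂ] A}
    (h : OSForm B τ) (hb : ∀ F, ∃ C : ℝ, ∀ n : ℕ, ‖B F (τ^[n] F)‖ ≤ C) :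
    ∃ (H : Type) (_ : NormedAddCommGroup H) (_ : InnerProductSpace ℂ H) (_ : CompleteSpace H)
      (J : A →ₗ[ℂ] H) (T : H →L[ℂ] H), DenseRange J ∧ (∀ F F', inner ℂ (J F) (J F') = B F F') ∧
      ∀ F, T (J F) = J (τ F) := by
  refine ⟨Hil0 h, inferInstance, inferInstance, inferInstance, J0 h,
    ((J0 h) ∘ₗ τ).extendOfNorm (J0 h), denseRange_J0 h, inner_J0 h, fun F => ?_⟩
  rw [LinearMap.extendOfNorm_eq (denseRange_J0 h)
    ⟨1, fun x => by rw [one_mul]; exact norm_J0τ_le h hb x⟩]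
  rfl

namespace OSaux

section rep

variable {A : Type} [AddCommGroup A] [Module ℂ A] {B : A → A → ℂ} {τ : A →ₗ[ℂ] A}
  (h : OSForm B τ) {H : Type} [NormedAddCommGroup H] [InnerProductSpace ℂ H] [CompleteSpace H]
  (J : A →ₗ[ℂ] H) (T : H →L[ℂ] H) (hJ : DenseRange J) (hin : ∀ F F', inner ℂ (J F) (J F') = B F F')
  (hT : ∀ F, T (J F) = J (τ F)) {one : A} (h1 : τ one = one) (h11 : B one one = 1)

include h hJ hin hT

theorem T_symm (x y : H) : inner ℂ (T x) y = inner ℂ x (T y) := by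
  refine DenseRange.induction_on₂ hJ (isClosed_eq (by fun_prop) (by fun_prop)) ?_ x y
  intro F G; rw [hT, hT, hin, hin, h.tau]

theorem T_iter (F : A) (n : ℕ) : T^[n] (J F) = J (τ^[n] F) := by
  induction n with
  | zero => rfl
  | succ n ih => rw [Function.iterate_succ_apply', ih, hT, ← Function.iterate_succ_apply' τ]

include h11 in
omit [CompleteSpace H] hJ hT h in
theorem inner_one : inner ℂ (J one) (J one) = 1 := by rw [hin, h11]

include h1 in
omit [CompleteSpace H] hJ hin h in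
theorem T_one : T (J one) = J one := by rw [hT, h1]

include h1 in
theorem inner_one_T (x : H) : inner ℂ (J one) (T x) = inner ℂ (J one) x := by
  rw [← T_symm h J T hJ hin hT, hT, h1]

end rep

/-- the projection onto the orthogonal complement of a vector -/
def prj {H : Type} [NormedAddCommGroup H] [InnerProductSpace ℂ H] (w x : H) : H :=
  x - (inner ℂ w x) • w

theorem prj_symm {H : Type} [NormedAddCommGroup H] [InnerProductSpace ℂ H] (w x y : H) :
    inner ℂ (prj w x) y = inner ℂ x (prj w y) := by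
  rw [prj, prj, inner_sub_left, inner_sub_right, inner_smul_left, inner_smul_right,
    inner_conj_symm]
  ring

section

variable {H : Type} [NormedAddCommGroup H] [InnerProductSpace ℂ H] [CompleteSpace H] {w : H}
  (hw : inner ℂ w w = (1 : ℂ)) {T : H →L[ℂ] H} (hs : ∀ x y, inner ℂ (T x) y = inner ℂ x (T y))
  (hTw : T w = w)

include hw

theorem inner_prj (x : H) : inner ℂ w (prj w x) = 0 := by
  rw [prj, inner_sub_right, inner_smul_right, hw, mul_one, sub_self]

theorem norm_w : ‖w‖ = 1 := by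
  have h : ‖w‖ ^ 2 = 1 := by
    have := inner_self_eq_norm_sq_to_K (𝕜 := ℂ) w
    rw [hw] at this
    have h2 : ((1 : ℝ) : ℂ) = ((‖w‖ ^ 2 : ℝ) : ℂ) := by push_cast; exact this
    exact (Complex.ofReal_injective h2).symm
  nlinarith [norm_nonneg w]

omit hw in
theorem prj_of_orth {x : H} (hx : inner ℂ w x = (0 : ℂ)) : prj w x = x := by
  rw [prj, hx, zero_smul, sub_zero]

theorem norm_prj_le (x : H) : ‖prj w x‖ ≤ ‖x‖ := by
  have h1 : ‖x‖ ^ 2 = ‖prj w x‖ ^ 2 + ‖inner ℂ w x‖ ^ 2 := by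
    have e : x = prj w x + (inner ℂ w x) • w := by rw [prj]; abel
    have o : inner ℂ (prj w x) ((inner ℂ w x) • w) = (0 : ℂ) := by
      rw [inner_smul_right, ← inner_conj_symm (prj w x), inner_prj hw, map_zero, mul_zero]
    have h2 := norm_add_sq_eq_norm_sq_add_norm_sq_of_inner_eq_zero _ _ o
    rw [← e, norm_smul, norm_w hw, mul_one] at h2
    nlinarith [h2]
  have h2 : ‖prj w x‖ ^ 2 ≤ ‖x‖ ^ 2 := by rw [h1]; nlinarith [sq_nonneg ‖inner ℂ w x‖]
  exact le_of_sq_le h2 (norm_nonneg _)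

include hs hTw

omit hw in
theorem inner_w_T (x : H) : inner ℂ w (T x) = inner ℂ w x := by rw [← hs, hTw]

omit hw in
theorem T_prj (x : H) : T (prj w x) = prj w (T x) := by
  rw [prj, prj, map_sub, map_smul, hTw, inner_w_T hs hTw]

/-- the projection as an operator -/
def Pw (w : H) : H →L[ℂ] H := (innerSL ℂ w).smulRight w

omit hw hs hTw [CompleteSpace H] in
theorem Pw_apply (x : H) : Pw w x = (inner ℂ w x) • w := by simp [Pw]

/-- the operator on the complement -/
def Sw (w : H) (T : H →L[ℂ] H) : H →L[ℂ] H := T * (1 - Pw w)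

omit hw hs hTw [CompleteSpace H] in
theorem Sw_apply (x : H) : Sw w T x = T (prj w x) := by
  simp only [Sw, mul_apply_eq_comp, sub_apply, one_apply_eq_self, Pw_apply]; rfl

theorem T_eq : T = Pw w + Sw w T := by
  ext x
  rw [add_apply, Pw_apply, Sw_apply, T_prj hs hTw, prj, inner_w_T hs hTw]
  abel

theorem PS : Pw w * Sw w T = 0 := by
  ext x
  rw [mul_apply_eq_comp, Pw_apply, Sw_apply, inner_w_T hs hTw, inner_prj hw, zero_smul]; rfl

omit hs hTw in
theorem PP : Pw w * Pw w = Pw w := by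
  ext x
  rw [mul_apply_eq_comp, Pw_apply, Pw_apply, inner_smul_right, hw, mul_one]

end

/-- converse of `isUnit_aux` -/
theorem isUnit_aux2 {K R : Type*} [Field K] [Ring R] [Algebra K R] {P S : R} {z : K}
    (hz0 : z ≠ 0) (hz1 : z ≠ 1) (hPP : P * P = P) (hPS : P * S = 0)
    (hT : IsUnit (algebraMap K R z - (P + S))) : IsUnit (algebraMap K R z - S) := by
  have hz1' : z - 1 ≠ 0 := sub_ne_zero.mpr hz1
  set Z := algebraMap K R z with hZ
  set Y := algebraMap K R z⁻¹ with hY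
  set X := algebraMap K R (z - 1)⁻¹ with hX
  have cZP : Z * P = P * Z := Algebra.commutes z P
  have cYP : Y * P = P * Y := Algebra.commutes _ P
  have cXP : X * P = P * X := Algebra.commutes _ P
  have hZY : Z * Y = 1 := by rw [hZ, hY, ← map_mul, mul_inv_cancel₀ hz0, map_one]
  have hYZ : Y * Z = 1 := by rw [hZ, hY, ← map_mul, inv_mul_cancel₀ hz0, map_one]
  have hXZ : X * (Z - 1) = 1 := by
    rw [hZ, hX, ← map_one (algebraMap K R), ← map_sub, ← map_mul, inv_mul_cancel₀ hz1', map_one]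
  have hfac : (Z - P) * (Z - S) = Z * (Z - (P + S)) := by
    have e : (Z - P) * (Z - S) = Z * (Z - (P + S)) + (Z * P - P * Z) + P * S := by noncomm_ring
    rw [e, cZP, sub_self, hPS, add_zero, add_zero]
  -- left inverse of `Z - P`
  have hL : (Y * (1 - P) + X * P) * (Z - P) = 1 := by
    have e : (Y * (1 - P) + X * P) * (Z - P)
        = Y * Z - Y * (P * Z) - Y * (P - P * P) + X * (P * Z) - X * (P * P) := by noncomm_ring
    rw [e, ← cZP, hPP, sub_self, mul_zero]
    have e2 : Y * Z - Y * (Z * P) - 0 + X * (Z * P) - X * P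
        = Y * Z - (Y * Z) * P + (X * (Z - 1)) * P := by noncomm_ring
    rw [e2, hYZ, hXZ]; noncomm_ring
  have hR : (Z - P) * (Y * (1 - P) + X * P) = 1 := by
    have hZX : (Z - 1) * X = 1 := by
      rw [hZ, hX, ← map_one (algebraMap K R), ← map_sub, ← map_mul, mul_inv_cancel₀ hz1', map_one]
    have e : (Z - P) * (Y * (1 - P) + X * P)
        = Z * Y * (1 - P) - (P * Y) * (1 - P) + Z * X * P - (P * X) * P := by noncomm_ring
    rw [e, ← cYP, ← cXP, hZY, mul_assoc Y, mul_assoc X, mul_sub P, hPP, mul_one, sub_self,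
      mul_zero]
    have e2 : 1 * (1 - P) - 0 + Z * X * P - X * P = 1 - P + (Z - 1) * X * P := by noncomm_ring
    rw [e2, hZX]; noncomm_ring
  have hU : IsUnit (Y * (1 - P) + X * P) :=
    ⟨⟨Y * (1 - P) + X * P, Z - P, hL, hR⟩, rfl⟩
  have e : Z - S = (Y * (1 - P) + X * P) * (Z * (Z - (P + S))) := by
    rw [← hfac, ← mul_assoc, hL, one_mul]
  rw [e]
  exact hU.mul ((IsUnit.map (algebraMap K R) (isUnit_iff_ne_zero.mpr hz0)).mul hT)

end OSaux

theorem os_gap {A : Type} [AddCommGroup A] [Module ℂ A] {B : A → A → ℂ} {τ : A →ₗ[ℂ] A}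
    (h : OSForm B τ) {H : Type} [NormedAddCommGroup H] [InnerProductSpace ℂ H] [CompleteSpace H]
    (J : A →ₗ[ℂ] H) (T : H →L[ℂ] H) (hJ : DenseRange J) (hin : ∀ F F', inner ℂ (J F) (J F') = B F F')
    (hT : ∀ F, T (J F) = J (τ F)) {one : A} (h1 : τ one = one) (h11 : B one one = 1)
    {m : ℝ} (hm : 0 < m)
    (hc : ∀ F, ∃ C : ℝ, ∀ n : ℕ, ‖B F (τ^[n] F) - (‖B one F‖ ^ 2 : ℝ)‖ ≤ C * Real.exp (-(m * n))) :
    IsSelfAdjoint T ∧ ‖T‖ ≤ 1 ∧ T (J one) = J one ∧ ‖J one‖ = 1 ∧
    (∀ x, inner ℂ (J one) x = 0 → ‖T x‖ ≤ Real.exp (-m) * ‖x‖) ∧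
    (∀ z ∈ spectrum ℂ T, z = 1 ∨ ‖z‖ ≤ Real.exp (-m)) ∧
    (∀ x, T x = x → ∃ c : ℂ, x = c • J one) := by
  have hs := T_symm h J T hJ hin hT
  have hw : inner ℂ (J one) (J one) = (1 : ℂ) := by rw [hin, h11]
  have hTw : T (J one) = J one := by rw [hT, h1]
  set w := J one with hwdef
  have hq0 : 0 < Real.exp (-m) := Real.exp_pos _
  have hq1 : Real.exp (-m) < 1 := by rw [Real.exp_lt_one_iff]; linarith
  -- iterates
  have hiter_pr : ∀ (x : H) (n : ℕ), T^[n] (prj w x) = prj w (T^[n] x) := by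
    intro x n
    induction n with
    | zero => rfl
    | succ n ih => rw [Function.iterate_succ_apply', ih, T_prj hs hTw,
        Function.iterate_succ_apply']
  have hinner_iter : ∀ (x : H) (n : ℕ), inner ℂ w (T^[n] x) = inner ℂ w x := by
    intro x n
    induction n with
    | zero => rfl
    | succ n ih => rw [Function.iterate_succ_apply', inner_w_T hs hTw, ih]
  have hcorr : ∀ (F : A) (n : ℕ), inner ℂ (prj w (J F)) (T^[n] (prj w (J F)))
      = B F (τ^[n] F) - (‖B one F‖ ^ 2 : ℝ) := by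
    intro F n
    rw [hiter_pr, prj, inner_sub_left, inner_smul_left, inner_prj hw, mul_zero, sub_zero, prj,
      inner_sub_right, inner_smul_right, hinner_iter, T_iter h J T hJ hin hT, hin, hwdef, hin,
      hin, h.symm F one, Complex.mul_conj, Complex.normSq_eq_norm_sq]
  have hgapJ : ∀ F : A, ‖T (prj w (J F))‖ ≤ Real.exp (-m) * ‖prj w (J F)‖ := by
    intro F
    obtain ⟨C, hC⟩ := hc F
    have := norm_iter_le (𝕜 := ℂ) hs (x := prj w (J F)) (C := C) hq0 (fun n => by
      rw [hcorr, ← exp_pow]; exact hC n) 1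
    rwa [pow_one] at this
  have key : ∀ y, ‖T (prj w y)‖ ≤ Real.exp (-m) * ‖prj w y‖ := by
    intro y
    refine DenseRange.induction_on hJ y
      (isClosed_le (by unfold prj; fun_prop) (by unfold prj; fun_prop)) hgapJ
  have hgap : ∀ x, inner ℂ w x = 0 → ‖T x‖ ≤ Real.exp (-m) * ‖x‖ := by
    intro x hx
    have := key x
    rwa [prj_of_orth hx] at this
  have hbd : ∀ F : A, ∃ C : ℝ, ∀ n : ℕ, ‖inner ℂ (J F) (T^[n] (J F))‖ ≤ C * 1 ^ n := by
    intro F
    obtain ⟨C, hC⟩ := hc F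
    refine ⟨|C| + ‖B one F‖ ^ 2, fun n => ?_⟩
    rw [T_iter h J T hJ hin hT, hin, one_pow, mul_one]
    have h2 : ‖B F (τ^[n] F)‖ ≤ ‖B F (τ^[n] F) - (‖B one F‖ ^ 2 : ℝ)‖ + ‖((‖B one F‖ ^ 2 : ℝ) : ℂ)‖ := by
      have := norm_add_le (B F (τ^[n] F) - (‖B one F‖ ^ 2 : ℝ)) ((‖B one F‖ ^ 2 : ℝ) : ℂ)
      rwa [sub_add_cancel] at this
    have h3 : ‖((‖B one F‖ ^ 2 : ℝ) : ℂ)‖ = ‖B one F‖ ^ 2 := by
      rw [Complex.norm_real, Real.norm_of_nonneg (by positivity)]
    have h4 : C * Real.exp (-(m * n)) ≤ |C| := by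
      have h5 : Real.exp (-(m * n)) ≤ 1 := by
        rw [Real.exp_le_one_iff]; have : (0 : ℝ) ≤ m * n := by positivity
        linarith
      calc C * Real.exp (-(m * n)) ≤ |C| * Real.exp (-(m * n)) :=
            mul_le_mul_of_nonneg_right (le_abs_self C) (Real.exp_pos _).le
        _ ≤ |C| * 1 := mul_le_mul_of_nonneg_left h5 (abs_nonneg C)
        _ = |C| := mul_one _
    linarith [hC n]
  have hnorm : ∀ x, ‖T x‖ ≤ ‖x‖ := by
    intro x
    refine DenseRange.induction_on hJ x (isClosed_le (by fun_prop) (by fun_prop)) ?_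
    intro F
    obtain ⟨C, hC⟩ := hbd F
    have := norm_iter_le (𝕜 := ℂ) hs (x := J F) (C := C) one_pos hC 1
    rwa [pow_one, one_mul] at this
  refine ⟨?_, ?_, hTw, norm_w hw, hgap, ?_, ?_⟩
  · rw [ContinuousLinearMap.isSelfAdjoint_iff_isSymmetric]
    intro x y
    exact hs x y
  · exact ContinuousLinearMap.opNorm_le_bound _ zero_le_one (fun x => by
      rw [one_mul]; exact hnorm x)
  · intro z hz
    by_contra hcon
    push Not at hcon
    obtain ⟨hz1, hzq⟩ := hcon
    have hz0 : z ≠ 0 := by rintro rfl; rw [norm_zero] at hzq; linarith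
    have hSn : ‖Sw w T‖ ≤ Real.exp (-m) := by
      refine ContinuousLinearMap.opNorm_le_bound _ hq0.le (fun x => ?_)
      rw [Sw_apply]
      exact le_trans (hgap _ (inner_prj hw x))
        (mul_le_mul_of_nonneg_left (norm_prj_le hw x) hq0.le)
    apply spectrum.notMem_iff.mpr _ hz
    rw [T_eq hw hs hTw]
    refine isUnit_aux hz0 hz1 (PP hw) (PS hw hs hTw) ?_
    have : z ∉ spectrum ℂ (Sw w T) := fun hzS => by
      have h1 := spectrum.norm_le_norm_mul_of_mem hzS
      have h2 : ‖(1 : H →L[ℂ] H)‖ ≤ 1 := ContinuousLinearMap.norm_id_le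
      have h3 : ‖Sw w T‖ * ‖(1 : H →L[ℂ] H)‖ ≤ Real.exp (-m) * 1 :=
        mul_le_mul hSn h2 (norm_nonneg _) hq0.le
      linarith
    exact spectrum.notMem_iff.mp this
  · intro x hx
    refine ⟨inner ℂ w x, ?_⟩
    have h2 : T (prj w x) = prj w x := by rw [T_prj hs hTw, hx]
    have h3 := hgap _ (inner_prj hw x)
    rw [h2] at h3
    have h4 : ‖prj w x‖ = 0 := by nlinarith [norm_nonneg (prj w x)]
    rw [norm_eq_zero, prj, sub_eq_zero] at h4
    exact h4

theorem os_upper {A : Type} [AddCommGroup A] [Module ℂ A] {B : A → A → ℂ} {τ : A →ₗ[ℂ] A}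
    (h : OSForm B τ) {H : Type} [NormedAddCommGroup H] [InnerProductSpace ℂ H] [CompleteSpace H]
    (J : A →ₗ[ℂ] H) (T : H →L[ℂ] H) (hJ : DenseRange J) (hin : ∀ F F', inner ℂ (J F) (J F') = B F F')
    (hT : ∀ F, T (J F) = J (τ F)) {one : A} (h1 : τ one = one) (h11 : B one one = 1)
    {m : ℝ} (hm : 0 < m)
    (hc : ∀ F, ∃ C : ℝ, ∀ n : ℕ, ‖B F (τ^[n] F) - (‖B one F‖ ^ 2 : ℝ)‖ ≤ C * Real.exp (-(m * n)))
    {F : A} (hF : B one F = 0) (hF0 : 0 < (B F F).re) {q : ℝ} (hq : 0 ≤ q)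
    (hq' : q ^ 2 * (B F F).re ≤ (B (τ F) (τ F)).re) :
    ∃ z ∈ spectrum ℂ T, z ≠ 1 ∧ q ≤ ‖z‖ := by
  obtain ⟨hsa, -, -, -, hgap, -, -⟩ := os_gap h J T hJ hin hT h1 h11 hm hc
  have hs := T_symm h J T hJ hin hT
  have hw : inner ℂ (J one) (J one) = (1 : ℂ) := by rw [hin, h11]
  have hTw : T (J one) = J one := by rw [hT, h1]
  set w := J one with hwdef
  have hq0 : 0 < Real.exp (-m) := Real.exp_pos _
  have hq1 : Real.exp (-m) < 1 := by rw [Real.exp_lt_one_iff]; linarith
  have hx0 : inner ℂ w (J F) = (0 : ℂ) := by rw [hwdef, hin, hF]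
  have hn1 : ‖J F‖ ^ 2 = (B F F).re := by
    have := inner_self_eq_norm_sq (𝕜 := ℂ) (J F)
    rw [hin] at this; exact this.symm
  have hn2 : ‖T (J F)‖ ^ 2 = (B (τ F) (τ F)).re := by
    have := inner_self_eq_norm_sq (𝕜 := ℂ) (T (J F))
    rw [hT, hin] at this; rw [hT]; exact this.symm
  rw [← hn1] at hF0 hq'
  rw [← hn2] at hq'
  have hxpos : 0 < ‖J F‖ := by
    rcases (norm_nonneg (J F)).eq_or_lt with h | h
    · rw [← h] at hF0; simp at hF0
    · exact h
  have hge : q * ‖J F‖ ≤ ‖T (J F)‖ := by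
    refine le_of_sq_le ?_ (norm_nonneg _)
    rw [mul_pow]; exact hq'
  have hSx : Sw w T (J F) = T (J F) := by rw [Sw_apply, prj_of_orth hx0]
  have hSq : q ≤ ‖Sw w T‖ := by
    have h2 := (Sw w T).le_opNorm (J F)
    rw [hSx] at h2
    exact le_of_mul_le_mul_right (hge.trans h2) hxpos
  have hSn : ‖Sw w T‖ ≤ Real.exp (-m) := by
    refine ContinuousLinearMap.opNorm_le_bound _ hq0.le (fun x => ?_)
    rw [Sw_apply]
    exact le_trans (hgap _ (inner_prj hw x))
      (mul_le_mul_of_nonneg_left (norm_prj_le hw x) hq0.le)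
  have : Nontrivial H := ⟨⟨J F, 0, fun h => by rw [h, norm_zero] at hxpos; exact lt_irrefl _ hxpos⟩⟩
  by_cases hS0 : ‖Sw w T‖ = 0
  · have hq00 : q = 0 := le_antisymm (by rw [← hS0]; exact hSq) hq
    refine ⟨0, ?_, zero_ne_one, by rw [hq00]; exact norm_nonneg _⟩
    rw [spectrum.zero_mem_iff]
    intro hu
    have h2 : T (J F) = 0 := by
      rw [← hSx]
      have := (Sw w T).le_opNorm (J F)
      rw [hS0, zero_mul] at this
      exact norm_le_zero_iff.mp this
    obtain ⟨u, hu⟩ := hu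
    have h3 : (((u⁻¹ : (H →L[ℂ] H)ˣ) : H →L[ℂ] H) * (u : H →L[ℂ] H)) (J F) = J F := by
      rw [Units.inv_mul]; rfl
    rw [mul_apply_eq_comp, hu, h2, map_zero] at h3
    rw [← h3, norm_zero] at hxpos
    exact lt_irrefl _ hxpos
  · have hSsym : IsSelfAdjoint (Sw w T) := by
      rw [ContinuousLinearMap.isSelfAdjoint_iff_isSymmetric]
      intro x y
      show inner ℂ (Sw w T x) y = inner ℂ x (Sw w T y)
      rw [Sw_apply, Sw_apply, hs, T_prj hs hTw y, prj_symm]
    obtain ⟨z, hz, hzn⟩ := spectrum.exists_nnnorm_eq_spectralRadius (Sw w T)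
    rw [hSsym.spectralRadius_eq_nnnorm] at hzn
    have hzn' : ‖z‖ = ‖Sw w T‖ := by
      have h2 : ‖z‖₊ = ‖Sw w T‖₊ := by exact_mod_cast hzn
      exact congrArg NNReal.toReal h2
    have hz0 : z ≠ 0 := by rintro rfl; rw [norm_zero] at hzn'; exact hS0 hzn'.symm
    have hz1 : z ≠ 1 := by
      rintro rfl
      rw [norm_one] at hzn'
      linarith
    refine ⟨z, ?_, hz1, by rw [hzn']; exact hSq⟩
    intro hu
    apply hz
    have hu' : IsUnit (algebraMap ℂ (H →L[ℂ] H) z - T) := hu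
    rw [T_eq hw hs hTw] at hu'
    exact isUnit_aux2 hz0 hz1 (PP hw) (PS hw hs hTw) hu'

end Pool.Agent.N986.SL
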