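import Pool.Agent.N453.OS2

/-! Abstract Osterwalder–Schrader reconstruction: complex representations of real data. -/

set_option autoImplicit false
set_option linter.unusedSectionVars false

open scoped ComplexConjugate InnerProductSpace

noncomputable section

namespace Pool.Agent.N453.OS

open Pool.Agent.N986.SL Pool.Agent.N986.SL.OSaux

variable {A : Type} [AddCommGroup A] [Module ℝ A]

/-- a complex Hilbert space representation of real data: `J F` is the vector of the observable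
`F`, `T` the transfer operator -/
structure RecR (D : Data ℝ A) {H : Type} [NormedAddCommGroup H] [InnerProductSpace ℂ H]
    (J : A → H) (T : H →L[ℂ] H) : Prop where
  ip : ∀ F G, inner ℂ (J F) (J G) = ((D.B F G : ℝ) : ℂ)
  dense : Dense (Submodule.span ℂ (Set.range J) : Set H)
  step : ∀ F, T (J F) = J (D.τ F)

/-- the reconstruction exists -/
theorem exists_recR (D : Data ℝ A) : ∃ (H : Type) (_ : NormedAddCommGroup H)
    (_ : InnerProductSpace ℂ H) (_ : CompleteSpace H) (J : A → H) (T : H →L[ℂ] H),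
    RecR D J T := by
  have hsplit : ∀ p : Cx A, p = toCx p.1 0 + Complex.I • toCx p.2 0 := by
    intro p
    apply cx_ext
    · simp [cx_smul_fst, cx_add_fst, toCx_fst, toCx_snd]
    · simp [cx_smul_snd, cx_add_snd, toCx_fst, toCx_snd]
  refine ⟨Hil (cx D), inferInstance, inferInstance, inferInstance,
    fun F => OS.J (cx D) (toCx F 0), OS.T (cx D), ⟨?_, ?_, ?_⟩⟩
  · intro F G
    rw [inner_J]
    apply Complex.ext
    · change D.B F G + D.B 0 0 = _
      rw [B_zero_right, add_zero, Complex.ofReal_re]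
    · change D.B F 0 - D.B 0 G = _
      rw [B_zero_right, B_zero_left, sub_zero, Complex.ofReal_im]
  · refine (denseRange_J (cx D)).mono ?_
    rintro _ ⟨p, rfl⟩
    rw [hsplit p, map_add, map_smul]
    exact Submodule.add_mem _ (Submodule.subset_span ⟨p.1, rfl⟩)
      (Submodule.smul_mem _ _ (Submodule.subset_span ⟨p.2, rfl⟩))
  · intro F
    rw [T_J]; congr 1
    apply cx_ext
    · rfl
    · exact map_zero D.τ

theorem osForm_cx (D : Data ℝ A) : OSForm (cx D).B (cx D).τ where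
  add F F' F'' := by
    rw [← (cx D).symm, (cx D).add_left, map_add, (cx D).symm, (cx D).symm]
  smul a F F' := by
    rw [← (cx D).symm, (cx D).smul_left, map_mul, (cx D).symm, Complex.conj_conj]
  symm F F' := ((cx D).symm F F').symm
  pos F := (cx D).nonneg F
  tau F F' := (cx D).symm_τ F F'

section rep

variable {D : Data ℝ A} {H : Type} [NormedAddCommGroup H] [InnerProductSpace ℂ H]
  {J : A → H} {T : H →L[ℂ] H} (h : RecR D J T)

include h

theorem RecR.add (F G : A) : J (F + G) = J F + J G := by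
  have key : ∀ F'', inner ℂ (J F'') (J (F + G) - (J F + J G)) = (0 : ℂ) := by
    intro F''
    rw [inner_sub_right, inner_add_right, h.ip, h.ip, h.ip, B_add_right]
    push_cast
    ring
  rw [← sub_eq_zero, ← inner_self_eq_zero (𝕜 := ℂ), inner_sub_left, inner_add_left, key, key, key]
  ring

theorem RecR.smul (r : ℝ) (F : A) : J (r • F) = (r : ℂ) • J F := by
  have key : ∀ F'', inner ℂ (J F'') (J (r • F) - (r : ℂ) • J F) = (0 : ℂ) := by
    intro F''
    rw [inner_sub_right, inner_smul_right, h.ip, h.ip, B_smul_right]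
    push_cast
    ring
  rw [← sub_eq_zero, ← inner_self_eq_zero (𝕜 := ℂ), inner_sub_left, inner_smul_left, key, key]
  ring

/-- the complex linear extension -/
def RecR.ext : Cx A →ₗ[ℂ] H where
  toFun p := J p.1 + Complex.I • J p.2
  map_add' p q := by
    rw [cx_add_fst, cx_add_snd, h.add, h.add, smul_add]; abel
  map_smul' z p := by
    have hn : ∀ F G : A, J (F - G) = J F - J G := by
      intro F G
      have e : F - G = F + (-1 : ℝ) • G := by rw [neg_one_smul, sub_eq_add_neg]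
      rw [e, h.add, h.smul]
      push_cast
      rw [neg_one_smul, sub_eq_add_neg]
    rw [cx_smul_fst, cx_smul_snd, hn, h.add, h.smul, h.smul, h.smul, h.smul]
    simp only [RingHom.id_apply, smul_add, smul_smul]
    have e1 : z = (z.re : ℂ) + (z.im : ℂ) * Complex.I := (Complex.re_add_im z).symm
    have e2 : z * Complex.I = (z.re : ℂ) * Complex.I - (z.im : ℂ) := by
      conv_lhs => rw [e1]
      rw [add_mul, mul_assoc, Complex.I_mul_I]; ring
    have e3 : z • J p.1 = (z.re : ℂ) • J p.1 + ((z.im : ℂ) * Complex.I) • J p.1 := by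
      rw [← add_smul, ← e1]
    rw [e2, e3, sub_smul, mul_comm Complex.I, mul_comm Complex.I]
    abel

theorem RecR.ext_apply (p : Cx A) : h.ext p = J p.1 + Complex.I • J p.2 := rfl

theorem RecR.inner_ext (p q : Cx A) : inner ℂ (h.ext p) (h.ext q) = (cx D).B p q := by
  rw [h.ext_apply, h.ext_apply, inner_add_left, inner_add_right, inner_add_right,
    inner_smul_left, inner_smul_left, inner_smul_right, inner_smul_right, h.ip, h.ip, h.ip, h.ip,
    Complex.conj_I]
  apply Complex.ext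
  · change _ = D.B p.1 q.1 + D.B p.2 q.2
    simp
  · change _ = D.B p.1 q.2 - D.B p.2 q.1
    simp
    ring

theorem RecR.dense_ext : DenseRange h.ext := by
  refine h.dense.mono ?_
  intro x hx
  refine Submodule.span_induction (p := fun x _ => x ∈ Set.range h.ext) ?_ ?_ ?_ ?_ hx
  · rintro _ ⟨F, rfl⟩
    refine ⟨toCx F 0, ?_⟩
    have hz : J (0 : A) = 0 := by
      have := h.smul 0 0
      simpa using this
    rw [h.ext_apply, toCx_fst, toCx_snd, hz, smul_zero, add_zero]
  · exact ⟨0, map_zero _⟩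
  · rintro _ _ _ _ ⟨a, rfl⟩ ⟨b, rfl⟩
    exact ⟨a + b, map_add _ _ _⟩
  · rintro c _ _ ⟨a, rfl⟩
    exact ⟨c • a, map_smul _ _ _⟩

theorem RecR.step_ext (p : Cx A) : T (h.ext p) = h.ext ((cx D).τ p) := by
  rw [h.ext_apply, map_add, map_smul, h.step, h.step]
  rfl

theorem RecR.ext_one : h.ext (cx D).one = J D.one := by
  have hz : J (0 : A) = 0 := by
    have := h.smul 0 0
    simpa using this
  change J D.one + Complex.I • J 0 = _
  rw [hz, smul_zero, add_zero]

/-- **properties of every reconstruction** -/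
theorem RecR.props [CompleteSpace H] {m : ℝ} (hm : 0 < m) (hcl : Clust D m) :
    IsSelfAdjoint T ∧ ‖T‖ ≤ 1 ∧ ‖J D.one‖ = 1 ∧
    (∀ x, T x = x ↔ ∃ c : ℂ, x = c • J D.one) ∧
    (∀ x, inner ℂ (J D.one) x = 0 → ‖T x‖ ≤ Real.exp (-m) * ‖x‖) ∧
    (∀ z ∈ spectrum ℂ T, z = 1 ∨ ‖z‖ ≤ Real.exp (-m)) ∧
    ((∀ F, 0 ≤ D.B F (D.τ F)) → T.IsPositive) ∧
    (∀ (F : A) (m₂ : ℝ), 0 < corr D F 0 → Real.exp (-(2 * m₂)) * corr D F 0 ≤ corr D F 2 →
      ∃ z ∈ spectrum ℂ T, z ≠ 1 ∧ Real.exp (-m₂) ≤ ‖z‖) := by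
  have hc : ∀ F : Cx A, ∃ C : ℝ, ∀ n : ℕ,
      ‖(cx D).B F ((cx D).τ^[n] F) - (‖(cx D).B (cx D).one F‖ ^ 2 : ℝ)‖ ≤
        C * Real.exp (-(m * n)) := by
    intro F
    obtain ⟨C, hC⟩ := clust_cx hcl F
    refine ⟨C, fun n => ?_⟩
    have e : ‖(cx D).B (cx D).one F‖ = ‖(cx D).B F (cx D).one‖ := by
      rw [← (cx D).symm F (cx D).one, RCLike.norm_conj]
    rw [e]
    exact hC n
  obtain ⟨g1, g2, g3, g4, g5, g6, g7⟩ := os_gap (osForm_cx D) h.ext T h.dense_ext h.inner_ext
    h.step_ext (cx D).τ_one (cx D).B_one hm hc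
  have hup := fun (F : Cx A) => @os_upper (Cx A) _ _ _ _ (osForm_cx D) H _ _ _ h.ext T h.dense_ext
    h.inner_ext h.step_ext (cx D).one (cx D).τ_one (cx D).B_one m hm hc F
  rw [h.ext_one] at g3 g4 g5 g7
  refine ⟨g1, g2, g4, fun x => ⟨g7 x, ?_⟩, g5, g6, fun hpos => ?_, fun F m₂ h0 h2 => ?_⟩
  · rintro ⟨c, rfl⟩
    rw [map_smul, g3]
  · rw [ContinuousLinearMap.isPositive_def']
    refine ⟨g1, fun x => ?_⟩
    refine DenseRange.induction_on h.dense_ext x (isClosed_le continuous_const ?_) ?_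
    · unfold ContinuousLinearMap.reApplyInnerSelf
      fun_prop
    · intro p
      rw [ContinuousLinearMap.reApplyInnerSelf_apply, h.step_ext, h.inner_ext]
      change 0 ≤ D.B (D.τ p.1) p.1 + D.B (D.τ p.2) p.2
      rw [D.symm_τ, D.symm_τ]
      exact add_nonneg (hpos _) (hpos _)
  · set c : ℝ := D.B F D.one with hcdef
    set F' : A := F - c • D.one with hF'
    have hb1 : D.B D.one F' = 0 := by
      rw [hF', sub_eq_add_neg, B_add_right, B_neg_right, B_smul_right, D.B_one, hcdef,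
        B_symm D D.one F]
      ring
    have hb0 : D.B F' D.one = 0 := by rw [B_symm, hb1]
    have hτ1 : ∀ n : ℕ, D.τ^[n] F' = D.τ^[n] F - c • D.one := by
      intro n
      induction n with
      | zero => rfl
      | succ n ih => rw [Function.iterate_succ_apply', ih, map_sub, map_smul, D.τ_one,
          ← Function.iterate_succ_apply' D.τ]
    have hco : ∀ n : ℕ, D.B F' (D.τ^[n] F') = corr D F n := by
      intro n
      have e1 : D.B F' (D.τ^[n] F') = D.B F' (D.τ^[n] F) := by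
        rw [hτ1, sub_eq_add_neg, B_add_right, B_neg_right, B_smul_right, hb0]
        ring
      have e2 : D.B D.one (D.τ^[n] F) = c := by
        rw [← B_τ_iter, Function.iterate_fixed D.τ_one, hcdef, B_symm]
      rw [e1, hF', B_sub_left, B_smul_left, e2, corr_real]
      ring
    have hB0 : ((cx D).B (toCx F' 0) (toCx F' 0)).re = corr D F 0 := by
      change D.B F' F' + D.B 0 0 = _
      rw [B_zero_right, add_zero]
      exact hco 0
    have hB2 : ((cx D).B ((cx D).τ (toCx F' 0)) ((cx D).τ (toCx F' 0))).re = corr D F 2 := by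
      change D.B (D.τ F') (D.τ F') + D.B (D.τ 0) (D.τ 0) = _
      rw [map_zero, B_zero_right, add_zero, D.symm_τ]
      exact hco 2
    refine hup (toCx F' 0) ?_ ?_ (Real.exp_pos _).le ?_
    · apply Complex.ext
      · change D.B D.one F' + D.B 0 0 = 0
        rw [hb1, B_zero_right, add_zero]
      · change D.B D.one 0 - D.B 0 F' = 0
        rw [B_zero_right, B_zero_left, sub_zero]
    · rw [hB0]; exact h0
    · rw [hB0, hB2]
      have e : Real.exp (-m₂) ^ 2 = Real.exp (-(2 * m₂)) := by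
        rw [← Real.exp_nat_mul]; congr 1; push_cast; ring
      rw [e]
      exact h2

end rep

/-- The mass gap of a transfer operator. -/
def massGap {H : Type} [NormedAddCommGroup H] [InnerProductSpace ℂ H] (T : H →L[ℂ] H) : ℝ :=
  -Real.log (sSup {t : ℝ | ∃ z ∈ spectrum ℂ T, z ≠ 1 ∧ ‖z‖ = t})

lemma massGap_bd {H : Type} [NormedAddCommGroup H] [InnerProductSpace ℂ H] {T : H →L[ℂ] H}
    {m M : ℝ} (h1 : ∀ z ∈ spectrum ℂ T, z = 1 ∨ ‖z‖ ≤ Real.exp (-m))
    (h2 : ∃ z ∈ spectrum ℂ T, z ≠ 1 ∧ Real.exp (-M) ≤ ‖z‖) :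
    m ≤ massGap T ∧ massGap T ≤ M := by
  obtain ⟨z, hz, hz1, hz2⟩ := h2
  have hb : ∀ t ∈ {t : ℝ | ∃ z ∈ spectrum ℂ T, z ≠ 1 ∧ ‖z‖ = t}, t ≤ Real.exp (-m) := by
    rintro t ⟨w, hw, hw1, rfl⟩
    exact (h1 w hw).resolve_left hw1
  have hne : {t : ℝ | ∃ z ∈ spectrum ℂ T, z ≠ 1 ∧ ‖z‖ = t}.Nonempty := ⟨‖z‖, z, hz, hz1, rfl⟩
  have h3 := csSup_le hne hb
  have h4 : Real.exp (-M) ≤ sSup {t : ℝ | ∃ z ∈ spectrum ℂ T, z ≠ 1 ∧ ‖z‖ = t} :=
    hz2.trans (le_csSup ⟨_, hb⟩ ⟨z, hz, hz1, rfl⟩)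
  have h5 : 0 < sSup {t : ℝ | ∃ z ∈ spectrum ℂ T, z ≠ 1 ∧ ‖z‖ = t} := (Real.exp_pos _).trans_le h4
  unfold massGap
  constructor
  · rw [le_neg, Real.log_le_iff_le_exp h5]
    exact h3
  · rw [neg_le, Real.le_log_iff_exp_le h5]
    exact h4

end Pool.Agent.N453.OS
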